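import Pool.Agent.W206.YP.Stm

/-!
# Change of the index set of the gates (helper231)
-/

set_option autoImplicit false

namespace Pool.Agent.W231.YP.TR

open MvPolynomial Pool.Agent.W206.YP Pool.Agent.W206.CT

theorem ker_eq {K ι ι' L : Type} [Field K] [Field L] [Algebra K L] (e : ι ≃ ι') (ω : ι → L) :
    RingHom.ker (aeval (fun i' => ω (e.symm i')) : MvPolynomial ι' K →ₐ[K] L) =
      Ideal.comap (rename (R := K) e.symm)
        (RingHom.ker (aeval ω : MvPolynomial ι K →ₐ[K] L)) := by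
  ext g
  rw [Ideal.mem_comap, RingHom.mem_ker, RingHom.mem_ker, aeval_rename]
  rfl

/-- the equivalence of the nodes -/
abbrev ee {G G' : Type} (e : G ≃ G') : G × Fin 3 ≃ G' × Fin 3 := e.prodCongr (Equiv.refl (Fin 3))

theorem atyp {K G G' L : Type} [Fintype G] [Fintype G'] [Field K] [Field L] [Algebra K L]
    [Algebra Qb L] (e : G ≃ G') {κ : G → Bool} {ω : G × Fin 3 → L} (h : AtypPt K κ ω) :
    AtypPt K (fun g' => κ (e.symm g')) (fun p => ω ((ee e).symm p)) := by
  obtain ⟨h1, m, T, ⟨y, hy1, hy2⟩, h3, h4⟩ := h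
  refine ⟨fun g => h1 (e.symm g), m, T.map (ee e).toEmbedding, ⟨y, hy1, ?_⟩, ?_, ?_⟩
  · have hr : Set.range (fun i' => ω ((ee e).symm i')) = Set.range ω :=
      (ee e).symm.surjective.range_comp ω
    rw [hr]
    exact hy2
  · intro t' ht'
    obtain ⟨t, ht, rfl⟩ := Finset.mem_map.1 ht'
    rcases h3 t ht with ⟨c, hc, hc'⟩ | ⟨u, hu, F, hF, hF'⟩
    · refine Or.inl ⟨c, hc, ?_⟩
      have h5 : (ee e).symm ((ee e).toEmbedding t) = t := (ee e).symm_apply_apply t
      show ω ((ee e).symm ((ee e).toEmbedding t)) = _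
      rw [h5]
      exact hc'
    · refine Or.inr ⟨ee e u, ?_, F, hF, ?_⟩
      · intro hu'
        obtain ⟨v, hv, hv'⟩ := Finset.mem_map.1 hu'
        have : v = u := (ee e).injective hv'
        exact hu (this ▸ hv)
      · have h5 : (ee e).symm ((ee e).toEmbedding t) = t := (ee e).symm_apply_apply t
        have h6 : (ee e).symm ((ee e) u) = u := (ee e).symm_apply_apply u
        show aeval ![ω ((ee e).symm ((ee e).toEmbedding t)), ω ((ee e).symm ((ee e) u))] F = 0
        rw [h5, h6]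
        exact hF'
  · rw [Finset.card_map, ← Fintype.card_congr e]
    exact h4

theorem main : Pool.Agent.W206.YP.S_TR := by
  classical
  intro hk G _ κ
  have e : Fin (Fintype.card G) ≃ G := (Fintype.equivFin G).symm
  obtain ⟨S, h1, h2⟩ := hk _ (fun i => κ (e i))
  have hκ : (fun g => (fun i => κ (e i)) (e.symm g)) = κ := by
    ext g
    simp
  refine ⟨S.image (Ideal.comap (rename (R := Qb) (ee e).symm)), ?_, ?_⟩
  · intro p hp
    obtain ⟨q, hq, rfl⟩ := Finset.mem_image.1 hp
    obtain ⟨L, iF, iA, ω, h3, h4⟩ := h1 q hq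
    refine ⟨L, iF, iA, fun i' => ω ((ee e).symm i'), ?_, ?_⟩
    · have h5 := atyp e h3
      rw [hκ] at h5
      exact h5
    · rw [ker_eq, h4]
  · intro L _ _ ω' hω'
    have h3 := atyp e.symm hω'
    obtain ⟨p, hp, hle⟩ := h2 L _ h3
    refine ⟨Ideal.comap (rename (R := Qb) (ee e).symm) p, Finset.mem_image_of_mem _ hp, ?_⟩
    have h4 := ker_eq (K := Qb) (ee e) (fun i => ω' ((ee e.symm).symm i))
    have h5 : (fun i' => (fun i => ω' ((ee e.symm).symm i)) ((ee e).symm i')) = ω' := by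
      ext ⟨g, k⟩
      show ω' (e (e.symm g), k) = ω' (g, k)
      rw [Equiv.apply_symm_apply]
    rw [h5] at h4
    rw [h4]
    exact Ideal.comap_mono hle

end Pool.Agent.W231.YP.TR
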